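import Pool.Agent.Q211.CH.Defs

/-!
# The Choquet order is antisymmetric
-/

open MeasureTheory Filter Topology

namespace Pool.Agent.Q211.CH

attribute [local instance] borelOn borelSpace_on

variable {E : Type*} [AddCommGroup E] [Module ℝ E] [TopologicalSpace E] {X : Set E}

/-- differences of continuous convex functions -/
def DC (X : Set E) : Set C(X, ℝ) :=
  {h | ∃ f g : E → ℝ, ContinuousOn f X ∧ ConvexOn ℝ X f ∧ ContinuousOn g X ∧ ConvexOn ℝ X g ∧
    ∀ x : X, h x = f x - g x}

theorem dc_sup {h h' : C(X, ℝ)} (H : h ∈ DC X) (H' : h' ∈ DC X) : h ⊔ h' ∈ DC X := by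
  obtain ⟨f, g, hf, cf, hg, cg, e⟩ := H
  obtain ⟨f', g', hf', cf', hg', cg', e'⟩ := H'
  refine ⟨(f + g') ⊔ (f' + g), g + g', (hf.add hg').sup (hf'.add hg), (cf.add cg').sup (cf'.add cg),
    hg.add hg', cg.add cg', fun x => ?_⟩
  simp only [ContinuousMap.coe_sup, Pi.sup_apply, e, e', Pi.add_apply]
  rw [← max_sub_sub_right]
  congr 1 <;> ring

theorem dc_neg {h : C(X, ℝ)} (H : h ∈ DC X) : -h ∈ DC X := by
  obtain ⟨f, g, hf, cf, hg, cg, e⟩ := H
  exact ⟨g, f, hg, cg, hf, cf, fun x => by simp [e]⟩

theorem dc_inf {h h' : C(X, ℝ)} (H : h ∈ DC X) (H' : h' ∈ DC X) : h ⊓ h' ∈ DC X := by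
  have := dc_neg (dc_sup (dc_neg H) (dc_neg H'))
  have e : -(-h ⊔ -h') = h ⊓ h' := by
    rw [neg_sup, neg_neg, neg_neg]
  rwa [e] at this

theorem continuous_int (hX : IsCompact X) (m : RadonProb X) :
    haveI : CompactSpace X := isCompact_iff_compactSpace.1 hX
    Continuous (fun h : C(X, ℝ) => ∫ x, h x ∂m.μ) := by
  haveI : CompactSpace X := isCompact_iff_compactSpace.1 hX
  haveI := m.prob
  refine LipschitzWith.continuous (K := 1) (LipschitzWith.of_dist_le_mul fun h h' => ?_)
  rw [Real.dist_eq, ← integral_sub (integrable_of_continuous hX m h)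
    (integrable_of_continuous hX m h'), NNReal.coe_one, one_mul]
  have key := norm_integral_le_of_norm_le_const (μ := m.μ) (f := fun x => h x - h' x)
    (C := dist h h') (Eventually.of_forall fun x => by
      rw [← dist_eq_norm]; exact ContinuousMap.dist_apply_le_dist x)
  simpa using key

variable [IsTopologicalAddGroup E] [ContinuousSMul ℝ E] [LocallyConvexSpace ℝ E] [T2Space E]

theorem dc_sep (hc : Convex ℝ X) : (DC X).SeparatesPointsStrongly := by
  intro v x y
  by_cases hxy : x = y
  · subst hxy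
    refine ⟨ContinuousMap.const _ (v x), ⟨fun _ => v x, 0, continuousOn_const,
      convexOn_const _ hc, continuousOn_const, convexOn_const _ hc, fun z => ?_⟩, rfl, rfl⟩
    simp
  · have hne : (x : E) ≠ y := fun h => hxy (Subtype.ext h)
    obtain ⟨φ, hφ⟩ := geometric_hahn_banach_point_point (E := E) hne
    set r : ℝ := (v y - v x) / (φ y - φ x) with hr
    have hd : φ y - φ x ≠ 0 := by linarith [hφ] |> fun h => ne_of_gt h
    let f : E → ℝ := fun z => v x + r * (φ z - φ x)
    have hf : Continuous f := by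
      have := φ.continuous
      fun_prop
    have cf : ConvexOn ℝ X f := by
      refine ⟨hc, fun z _ w _ a b ha hb hab => le_of_eq ?_⟩
      simp only [f, map_add, map_smul, smul_eq_mul]
      have : b = 1 - a := by linarith
      subst this
      ring
    refine ⟨toC f hf.continuousOn, ⟨f, 0, hf.continuousOn, cf, continuousOn_const,
      convexOn_const _ hc, fun z => ?_⟩, ?_, ?_⟩
    · simp [toC]
    · simp [toC, f]
    · simp only [toC, f, ContinuousMap.coe_mk, hr]
      field_simp
      ring

/-- The continuous convex functions determine a Radon probability. -/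
theorem eq_of_convex (hX : IsCompact X) (hc : Convex ℝ X) (m n : RadonProb X)
    (h : ∀ f : E → ℝ, ContinuousOn f X → ConvexOn ℝ X f →
      ∫ x : X, f x ∂m.μ = ∫ x : X, f x ∂n.μ) : m = n := by
  haveI : CompactSpace X := isCompact_iff_compactSpace.1 hX
  haveI := m.reg
  haveI := n.reg
  have hcl : closure (DC X) = ⊤ := ContinuousMap.sublattice_closure_eq_top (DC X)
    ⟨0, 0, 0, continuousOn_const, convexOn_const _ hc, continuousOn_const, convexOn_const _ hc,
      fun z => by simp⟩ (fun f hf g hg => dc_inf hf hg) (fun f hf g hg => dc_sup hf hg) (dc_sep hc)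
  have hsub : DC X ⊆ {g : C(X, ℝ) | ∫ x, g x ∂m.μ = ∫ x, g x ∂n.μ} := by
    rintro k ⟨f, g, hf, cf, hg, cg, e⟩
    simp only [Set.mem_setOf_eq]
    simp_rw [e]
    rw [integral_sub (integrable_on hX m hf) (integrable_on hX m hg),
      integral_sub (integrable_on hX n hf) (integrable_on hX n hg), h f hf cf, h g hg cg]
  have hclosed : IsClosed {g : C(X, ℝ) | ∫ x, g x ∂m.μ = ∫ x, g x ∂n.μ} :=
    isClosed_eq (continuous_int hX m) (continuous_int hX n)
  have hall : ∀ g : C(X, ℝ), ∫ x, g x ∂m.μ = ∫ x, g x ∂n.μ := by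
    intro g
    have := closure_minimal hsub hclosed
    rw [hcl] at this
    exact this (Set.mem_univ g)
  refine RadonProb.ext' (Measure.ext_of_integral_eq_on_compactlySupported fun f => ?_)
  exact hall ⟨f, f.continuous⟩

end Pool.Agent.Q211.CH
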