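import Mathlib

/-!
# Choquet theory: definitions

Radon probabilities on a compact convex set, the Choquet order, maximal measures, simplices,
the classes `C_1` and `A_1` of maps into the space of Radon probabilities, `K`-analytic sets.
-/

open MeasureTheory Filter Topology

namespace Pool.Agent.Q211.CH

variable {E : Type*} [AddCommGroup E] [Module ℝ E] [TopologicalSpace E]

/-- The Borel sigma-algebra of the subspace `X`. -/
@[reducible] def borelOn (X : Set E) : MeasurableSpace X := borel X

attribute [local instance] borelOn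

/-- Radon probabilities on the compact set `X`: regular Borel probabilities. -/
structure RadonProb (X : Set E) where
  /-- the measure -/
  μ : Measure X
  prob : IsProbabilityMeasure μ
  reg : μ.Regular

/-- The weak* topology: the coarsest topology for which the integrals of all continuous
functions on `X` are continuous. -/
noncomputable instance weakStar (X : Set E) : TopologicalSpace (RadonProb X) :=
  ⨅ f : C(X, ℝ), TopologicalSpace.induced (fun m : RadonProb X => ∫ x, f x ∂m.μ) inferInstance

/-- The Choquet order. -/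
def Prec {X : Set E} (m n : RadonProb X) : Prop :=
  ∀ f : E → ℝ, ContinuousOn f X → ConvexOn ℝ X f → ∫ x : X, f x ∂m.μ ≤ ∫ x : X, f x ∂n.μ

/-- Maximal measures. -/
def IsMaximal {X : Set E} (m : RadonProb X) : Prop := ∀ n : RadonProb X, Prec m n → n = m

/-- `m` represents `x`: it gives every continuous affine function its value at `x`. -/
def Represents {X : Set E} (m : RadonProb X) (x : X) : Prop :=
  ∀ f : E → ℝ, ContinuousOn f X → ConvexOn ℝ X f → ConcaveOn ℝ X f → f x = ∫ y : X, f y ∂m.μ

/-- Simplices: exactly one maximal representing measure for each point. -/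
def IsSimplex (X : Set E) : Prop :=
  ∀ x : X, ∃! m : RadonProb X, IsMaximal m ∧ Represents m x

/-- The class `C_1`: pointwise limits of sequences of continuous maps. -/
def ClassC1 {X : Set E} (T : X → RadonProb X) : Prop :=
  ∃ S : ℕ → X → RadonProb X, (∀ n, Continuous (S n)) ∧
    ∀ x, Tendsto (fun n => S n x) atTop (𝓝 (T x))

/-- The class `A_1`: pointwise limits of sequences of continuous affine maps. -/
def ClassA1 {X : Set E} (T : X → RadonProb X) : Prop :=
  ∃ S : ℕ → X → RadonProb X, (∀ n, Continuous (S n)) ∧
    (∀ n, ∀ x y z : X, ∀ a b : ℝ, 0 ≤ a → 0 ≤ b → a + b = 1 → (z : E) = a • (x : E) + b • (y : E) →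
      (S n z).μ = ENNReal.ofReal a • (S n x).μ + ENNReal.ofReal b • (S n y).μ) ∧
    ∀ x, Tendsto (fun n => S n x) atTop (𝓝 (T x))

/-- `K`-analytic sets: images of the irrationals under upper semicontinuous compact valued maps. -/
def IsKAnalytic {Y : Type*} [TopologicalSpace Y] (A : Set Y) : Prop :=
  ∃ φ : (ℕ → ℕ) → Set Y, (∀ s, IsCompact (φ s)) ∧
    (∀ s, ∀ U : Set Y, IsOpen U → φ s ⊆ U → ∀ᶠ t in 𝓝 s, φ t ⊆ U) ∧ ⋃ s, φ s = A

theorem ClassA1.classC1 {X : Set E} {T : X → RadonProb X} (h : ClassA1 T) : ClassC1 T := by
  obtain ⟨S, h1, -, h3⟩ := h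
  exact ⟨S, h1, h3⟩

/-- A countable union of compact sets is `K`-analytic. -/
theorem isKAnalytic_iUnion {Y : Type*} [TopologicalSpace Y] {C : ℕ → Set Y}
    (hC : ∀ n, IsCompact (C n)) : IsKAnalytic (⋃ n, C n) := by
  refine ⟨fun s => C (s 0), fun s => hC _, fun s U hU hs => ?_, ?_⟩
  · have : ∀ᶠ t : ℕ → ℕ in 𝓝 s, t 0 = s 0 :=
      (continuous_apply 0).continuousAt.eventually (f := fun t : ℕ → ℕ => t 0)
        (show ∀ᶠ k in 𝓝 (s 0), k = s 0 from by simp [nhds_discrete])
    filter_upwards [this] with t ht
    rw [ht]
    exact hs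
  · ext y
    simp only [Set.mem_iUnion]
    constructor
    · rintro ⟨s, h⟩
      exact ⟨s 0, h⟩
    · rintro ⟨n, h⟩
      exact ⟨fun _ => n, h⟩

section basic

variable {X : Set E}

theorem borelSpace_on (X : Set E) : BorelSpace X := ⟨rfl⟩

attribute [local instance] borelSpace_on

theorem RadonProb.ext' {m n : RadonProb X} (h : m.μ = n.μ) : m = n := by
  cases m; cases n; simp only at h; subst h; rfl

theorem tendsto_integral {T : ℕ → RadonProb X} {m : RadonProb X}
    (h : Tendsto T atTop (𝓝 m)) (f : C(X, ℝ)) :
    Tendsto (fun n => ∫ x, f x ∂(T n).μ) atTop (𝓝 (∫ x, f x ∂m.μ)) := by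
  have hc : Continuous (fun m : RadonProb X => ∫ x, f x ∂m.μ) :=
    continuous_iInf_dom (i := f) continuous_induced_dom
  exact (hc.tendsto m).comp h

theorem continuous_integral {Z : Type*} [TopologicalSpace Z] {T : Z → RadonProb X}
    (h : Continuous T) (f : C(X, ℝ)) : Continuous (fun z => ∫ x, f x ∂(T z).μ) := by
  have hc : Continuous (fun m : RadonProb X => ∫ x, f x ∂m.μ) :=
    continuous_iInf_dom (i := f) continuous_induced_dom
  exact hc.comp h

/-- restriction of a function continuous on `X` to a bundled continuous map -/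
def toC (f : E → ℝ) (hf : ContinuousOn f X) : C(X, ℝ) := ⟨fun x => f x, hf.comp_continuous continuous_subtype_val (fun x => x.2)⟩

theorem integrable_of_continuous (hX : IsCompact X) (m : RadonProb X) (f : C(X, ℝ)) :
    Integrable (fun x => f x) m.μ := by
  haveI := m.prob
  haveI : CompactSpace X := isCompact_iff_compactSpace.1 hX
  exact (BoundedContinuousFunction.mkOfCompact f).integrable m.μ

theorem integrable_on (hX : IsCompact X) (m : RadonProb X) {f : E → ℝ} (hf : ContinuousOn f X) :
    Integrable (fun x : X => f x) m.μ := integrable_of_continuous hX m (toC f hf)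

end basic

end Pool.Agent.Q211.CH
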