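import Pool.Agent.Q211.CH.Anti

/-!
# Discrete Radon probabilities
-/

open MeasureTheory Filter Topology

namespace Pool.Agent.Q211.CH

attribute [local instance] borelOn borelSpace_on

variable {E : Type*} [AddCommGroup E] [Module ℝ E] [TopologicalSpace E] {X : Set E}

section
variable {κ : Type*} (W : κ → ℝ) (p : κ → X)

/-- the discrete measure -/
noncomputable def discM : Measure X :=
  Measure.sum fun j => ENNReal.ofReal (W j) • Measure.dirac (p j)

variable {W} in
theorem discM_univ (hW : ∀ j, 0 ≤ W j) (h1 : HasSum W 1) : discM W p Set.univ = 1 := by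
  rw [discM, Measure.sum_apply _ MeasurableSet.univ]
  simp only [Measure.smul_apply, measure_univ, smul_eq_mul, mul_one]
  rw [← ENNReal.ofReal_tsum_of_nonneg hW h1.summable, h1.tsum_eq, ENNReal.ofReal_one]

variable [T2Space E]

theorem discM_inner (U : Set X) (hU : IsOpen U) (r : ENNReal) (hr : r < discM W p U) :
    ∃ K ⊆ U, K.Finite ∧ r < discM W p K := by
  classical
  rw [discM, Measure.sum_apply _ hU.measurableSet, ENNReal.tsum_eq_iSup_sum] at hr
  obtain ⟨s, hs⟩ := lt_iSup_iff.1 hr
  refine ⟨p '' {j | j ∈ s ∧ p j ∈ U}, ?_, ?_, ?_⟩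
  · rintro _ ⟨j, ⟨-, hj⟩, rfl⟩
    exact hj
  · exact ((s.finite_toSet).subset fun j hj => hj.1).image _
  · have hK : MeasurableSet (p '' {j | j ∈ s ∧ p j ∈ U}) :=
      (((s.finite_toSet).subset fun j hj => hj.1).image _).measurableSet
    rw [discM, Measure.sum_apply _ hK]
    refine hs.trans_le (le_trans (Finset.sum_le_sum fun j hj => ?_) (ENNReal.sum_le_tsum s))
    simp only [Measure.smul_apply, smul_eq_mul]
    rw [Measure.dirac_apply' _ hU.measurableSet, Measure.dirac_apply' _ hK]
    refine mul_le_mul_right ?_ _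
    by_cases h : p j ∈ U
    · have : p j ∈ p '' {j | j ∈ s ∧ p j ∈ U} := ⟨j, ⟨hj, h⟩, rfl⟩
      simp [this, h]
    · simp [h]

variable {W} in
/-- the discrete Radon probability with the given masses -/
noncomputable def disc (hW : ∀ j, 0 ≤ W j) (h1 : HasSum W 1) : RadonProb X where
  μ := discM W p
  prob := ⟨discM_univ p hW h1⟩
  reg := by
    haveI : IsProbabilityMeasure (discM W p) := ⟨discM_univ p hW h1⟩
    have hwr : (discM W p).WeaklyRegular := by
      refine Measure.InnerRegularWRT.weaklyRegular_of_finite _ fun U hU r hr => ?_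
      obtain ⟨K, hK, hf, h⟩ := discM_inner W p U hU r hr
      exact ⟨K, hK, hf.isClosed, h⟩
    exact
      { toOuterRegular := hwr.toOuterRegular
        innerRegular := fun U hU r hr => by
          obtain ⟨K, hK, hf, h⟩ := discM_inner W p U hU r hr
          exact ⟨K, hK, hf.isCompact, h⟩ }

variable {W} in
theorem disc_hasSum (hX : IsCompact X) (hW : ∀ j, 0 ≤ W j) (h1 : HasSum W 1) (f : C(X, ℝ)) :
    HasSum (fun j => W j * f (p j)) (∫ x, f x ∂(disc p hW h1).μ) := by
  have hi : Integrable (fun x => f x) (discM W p) := integrable_of_continuous hX (disc p hW h1) f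
  have := hasSum_integral_measure hi
  refine this.congr_fun ?_ |> id
  intro j
  rw [integral_smul_measure, integral_dirac, ENNReal.toReal_ofReal (hW j), smul_eq_mul]

end

end Pool.Agent.Q211.CH
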