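import Pool.Agent.Q211.CH.Frame

/-!
# Extreme points of a framed compact convex set
-/

open MeasureTheory Filter Topology

namespace Pool.Agent.Q211.CH

variable {E : Type*} [AddCommGroup E] [Module ℝ E] [TopologicalSpace E]

namespace Frame

variable {X : Set E} {ι : Type*} (Φ : Frame X ι)

theorem w_affine (i : ι) {x y : E} (hx : x ∈ X) (hy : y ∈ X) {a b : ℝ} (ha : 0 ≤ a) (hb : 0 ≤ b)
    (hab : a + b = 1) : Φ.w i (a • x + b • y) = a * Φ.w i x + b * Φ.w i y := by
  obtain ⟨u, C, h1, -, h3⟩ := Φ.w_lim i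
  have hxy := Φ.cvx hx hy ha hb hab
  have h4 := ((h3 x hx).const_mul a).add ((h3 y hy).const_mul b)
  refine tendsto_nhds_unique (h3 _ hxy) (h4.congr fun n => ?_)
  exact le_antisymm ((h1 n).2.2.2 hx hy ha hb hab) ((h1 n).2.1.2 hx hy ha hb hab)

variable [T2Space E]

theorem eq_of_w {x y : E} (hx : x ∈ X) (hy : y ∈ X) (h : ∀ i, Φ.w i x = Φ.w i y) : x = y := by
  have h1 := Φ.w_conv x hx
  simp only [h] at h1
  exact tendsto_nhds_unique h1 (Φ.w_conv y hy)

theorem q_ext (j : ι) : Φ.q j ∈ X.extremePoints ℝ := by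
  refine ⟨Φ.q_mem j, ?_⟩
  rintro x hx y hy ⟨a, b, ha, hb, hab, e⟩
  refine Φ.eq_of_w hx (Φ.q_mem j) fun i => ?_
  have h1 := Φ.w_affine i hx hy ha.le hb.le hab
  rw [e, Φ.w_q] at h1
  rw [Φ.w_q]
  by_cases hij : i = j
  · subst hij
    rw [Set.indicator_of_mem (Set.mem_singleton _)] at h1 ⊢
    have h2 := Φ.w_le hx i
    have h3 := Φ.w_le hy i
    nlinarith
  · rw [Set.indicator_of_notMem (by simpa using hij)] at h1 ⊢
    have h2 := Φ.w_nonneg i x hx
    have h3 := Φ.w_nonneg i y hy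
    have h4 : 0 ≤ a * Φ.w i x := by positivity
    have h5 : 0 ≤ b * Φ.w i y := by positivity
    have h6 : a * Φ.w i x = 0 := by linarith
    exact (mul_eq_zero.1 h6).resolve_left ha.ne'

theorem o_ext : Φ.o ∈ X.extremePoints ℝ := by
  refine ⟨Φ.o_mem, ?_⟩
  rintro x hx y hy ⟨a, b, ha, hb, hab, e⟩
  refine Φ.eq_of_w hx Φ.o_mem fun i => ?_
  have h1 := Φ.w_affine i hx hy ha.le hb.le hab
  rw [e, Φ.w_o] at h1
  rw [Φ.w_o]
  have h2 := Φ.w_nonneg i x hx
  have h3 := Φ.w_nonneg i y hy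
  have h4 : 0 ≤ a * Φ.w i x := by positivity
  have h5 : 0 ≤ b * Φ.w i y := by positivity
  have h6 : a * Φ.w i x = 0 := by linarith
  exact (mul_eq_zero.1 h6).resolve_left ha.ne'

variable [IsTopologicalAddGroup E] [ContinuousSMul ℝ E]

theorem ext_sub {x : E} (hx : x ∈ X.extremePoints ℝ) : x = Φ.o ∨ ∃ i, x = Φ.q i := by
  classical
  have hX := hx.1
  have h01 : ∀ i, Φ.w i x = 0 ∨ Φ.w i x = 1 := by
    intro i
    by_contra hcon
    push Not at hcon
    have h0 : 0 < Φ.w i x := lt_of_le_of_ne (Φ.w_nonneg i x hX) (Ne.symm hcon.1)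
    have h1 : Φ.w i x < 1 := lt_of_le_of_ne (Φ.w_le hX i) hcon.2
    have hd : 0 < 1 - Φ.w i x := by linarith
    set x' : E := (1 - Φ.w i x)⁻¹ • (x - Φ.w i x • Φ.q i) with hx'
    have hmem : x' ∈ X := by
      have hl : Tendsto (fun F : Finset ι => (1 - Φ.w i x)⁻¹ • ((∑ j ∈ F, Φ.w j x • Φ.q j) +
          (1 - ∑ j ∈ F, Φ.w j x) • Φ.o - Φ.w i x • Φ.q i)) atTop (𝓝 x') :=
        ((Φ.w_conv x hX).sub_const _).const_smul _
      refine Φ.cpt.isClosed.mem_of_tendsto hl ?_
      filter_upwards [eventually_ge_atTop ({i} : Finset ι)] with F hF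
      have hiF : i ∈ F := hF (Finset.mem_singleton_self i)
      have hs := Φ.w_sum x hX F
      rw [← Finset.add_sum_erase F _ hiF] at hs
      rw [← Finset.add_sum_erase F _ hiF, ← Finset.add_sum_erase F (fun j => Φ.w j x) hiF]
      let v : Option ι → ℝ := fun j => j.elim
        ((1 - Φ.w i x)⁻¹ * (1 - (Φ.w i x + ∑ j ∈ F.erase i, Φ.w j x)))
        fun j => (1 - Φ.w i x)⁻¹ * Φ.w j x
      let p : Option ι → E := fun j => j.elim Φ.o Φ.q
      have hv0 : ∀ j ∈ Finset.insertNone (F.erase i), 0 ≤ v j := by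
        intro j _
        cases j with
        | none =>
          simp only [v, Option.elim]
          exact mul_nonneg (inv_nonneg.2 hd.le) (by linarith)
        | some j => exact mul_nonneg (inv_nonneg.2 hd.le) (Φ.w_nonneg j x hX)
      have hv1 : ∑ j ∈ Finset.insertNone (F.erase i), v j = 1 := by
        rw [Finset.sum_insertNone]
        simp only [v, Option.elim]
        rw [← Finset.mul_sum, ← mul_add]
        have : 1 - (Φ.w i x + ∑ j ∈ F.erase i, Φ.w j x) + ∑ j ∈ F.erase i, Φ.w j x = 1 - Φ.w i x := by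
          ring
        rw [this]
        exact inv_mul_cancel₀ hd.ne'
      have hp : ∀ j ∈ Finset.insertNone (F.erase i), p j ∈ X := by
        intro j _
        cases j with
        | none => exact Φ.o_mem
        | some i => exact Φ.q_mem i
      have hm := Φ.cvx.sum_mem hv0 hv1 hp
      rw [Finset.sum_insertNone] at hm
      simp only [v, p, Option.elim, mul_smul] at hm
      rw [← Finset.smul_sum, ← smul_add] at hm
      convert hm using 2
      abel
    have hseg : x ∈ openSegment ℝ (Φ.q i) x' := by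
      refine ⟨Φ.w i x, 1 - Φ.w i x, h0, hd, by ring, ?_⟩
      rw [hx', smul_smul, mul_inv_cancel₀ hd.ne', one_smul]
      abel
    have := hx.2 (Φ.q_mem i) hmem hseg
    have h2 : Φ.w i x = 1 := by
      rw [← this, Φ.w_q]
      simp
    exact hcon.2 h2
  by_cases hall : ∀ i, Φ.w i x = 0
  · left
    exact Φ.eq_of_w hX Φ.o_mem fun i => by rw [hall, Φ.w_o]
  · right
    push Not at hall
    obtain ⟨i, hi⟩ := hall
    have hi1 : Φ.w i x = 1 := (h01 i).resolve_left hi
    refine ⟨i, Φ.eq_of_w hX (Φ.q_mem i) fun j => ?_⟩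
    rw [Φ.w_q]
    by_cases hji : j = i
    · subst hji; simp [hi1]
    · rw [Set.indicator_of_notMem (by simpa using hji)]
      have h1 := Φ.w_sum x hX {i, j}
      rw [Finset.sum_pair (Ne.symm hji), hi1] at h1
      linarith [Φ.w_nonneg j x hX]

theorem ext_eq : X.extremePoints ℝ = {Φ.o} ∪ Set.range Φ.q := by
  ext x
  constructor
  · intro hx
    rcases Φ.ext_sub hx with h | ⟨i, h⟩
    · exact Or.inl h
    · exact Or.inr ⟨i, h.symm⟩
  · rintro (h | ⟨i, rfl⟩)
    · rw [Set.mem_singleton_iff.1 h]; exact Φ.o_ext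
    · exact Φ.q_ext i

end Frame

end Pool.Agent.Q211.CH
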