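import Pool.Agent.Q211.CH.Disc

/-!
# An abstract criterion for a compact convex set to be a simplex with discrete maximal measures
-/

open MeasureTheory Filter Topology

namespace Pool.Agent.Q211.CH

attribute [local instance] borelOn borelSpace_on

variable {E : Type*} [AddCommGroup E] [Module ℝ E] [TopologicalSpace E]

/-- A compact convex set all of whose points are (in a unique affine way) countable convex
combinations of the points `o` and `q i`. -/
structure Frame (X : Set E) (ι : Type*) where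
  cpt : IsCompact X
  cvx : Convex ℝ X
  o : E
  q : ι → E
  w : ι → E → ℝ
  o_mem : o ∈ X
  q_mem : ∀ i, q i ∈ X
  w_nonneg : ∀ i, ∀ x ∈ X, 0 ≤ w i x
  w_sum : ∀ x ∈ X, ∀ F : Finset ι, ∑ i ∈ F, w i x ≤ 1
  w_conv : ∀ x ∈ X, Tendsto (fun F : Finset ι => (∑ i ∈ F, w i x • q i) +
    (1 - ∑ i ∈ F, w i x) • o) atTop (𝓝 x)
  w_lim : ∀ i, ∃ a : ℕ → E → ℝ, ∃ C : ℝ, (∀ n, ContinuousOn (a n) X ∧ ConvexOn ℝ X (a n) ∧
    ConcaveOn ℝ X (a n)) ∧ (∀ n, ∀ x ∈ X, |a n x| ≤ C) ∧
    ∀ x ∈ X, Tendsto (fun n => a n x) atTop (𝓝 (w i x))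
  cnt : ∀ f : E → ℝ, ContinuousOn f X → {i | f (q i) ≠ f o}.Countable
  w_q : ∀ i j, w i (q j) = Set.indicator {j} (fun _ => (1 : ℝ)) i
  w_o : ∀ i, w i o = 0

namespace Frame

variable {X : Set E} {ι : Type*} (Φ : Frame X ι)

theorem summable {x : E} (hx : x ∈ X) : Summable (fun i => Φ.w i x) :=
  summable_of_sum_le (fun i => Φ.w_nonneg i x hx) (Φ.w_sum x hx)

theorem tsum_le {x : E} (hx : x ∈ X) : ∑' i, Φ.w i x ≤ 1 :=
  (Φ.summable hx).tsum_le_of_sum_le (Φ.w_sum x hx)

theorem w_le {x : E} (hx : x ∈ X) (i : ι) : Φ.w i x ≤ 1 := by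
  have := Φ.w_sum x hx {i}
  simpa using this

/-- masses of the maximal measure of `x` -/
noncomputable def W (x : E) : ι ⊕ Unit → ℝ
  | Sum.inl i => Φ.w i x
  | Sum.inr _ => 1 - ∑' i, Φ.w i x

/-- points carrying the masses -/
def P : ι ⊕ Unit → X
  | Sum.inl i => ⟨Φ.q i, Φ.q_mem i⟩
  | Sum.inr _ => ⟨Φ.o, Φ.o_mem⟩

theorem W_nonneg {x : E} (hx : x ∈ X) (j : ι ⊕ Unit) : 0 ≤ Φ.W x j := by
  cases j with
  | inl i => exact Φ.w_nonneg i x hx
  | inr u => simp only [W]; linarith [Φ.tsum_le hx]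

theorem hasSum_W {x : E} (hx : x ∈ X) : HasSum (Φ.W x) 1 := by
  have h1 : HasSum (Φ.W x ∘ Sum.inl) (∑' i, Φ.w i x) := (Φ.summable hx).hasSum
  have h2 : HasSum (Φ.W x ∘ Sum.inr) (1 - ∑' i, Φ.w i x) := by
    have := hasSum_unique (Φ.W x ∘ Sum.inr)
    simpa [W] using this
  have := h1.sum h2
  simpa using this

variable [T2Space E]

/-- the maximal measure of `x` -/
noncomputable def T (x : X) : RadonProb X := disc Φ.P (Φ.W_nonneg x.2) (Φ.hasSum_W x.2)

/-- its integrals -/
theorem T_int (x : X) {f : E → ℝ} (hf : ContinuousOn f X) :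
    ∫ y : X, f y ∂(Φ.T x).μ = (∑' i, Φ.w i x * (f (Φ.q i) - f Φ.o)) + f Φ.o := by
  have h := disc_hasSum Φ.P Φ.cpt (Φ.W_nonneg x.2) (Φ.hasSum_W x.2) (toC f hf)
  have h1 := (h.sub ((Φ.hasSum_W x.2).mul_right (f Φ.o))).summable.comp_injective
    (Sum.inl_injective (α := ι) (β := Unit))
  have h2 : HasSum (fun i => Φ.w i x * (f (Φ.q i) - f Φ.o))
      (∑' i, Φ.w i x * (f (Φ.q i) - f Φ.o)) := by
    refine Summable.hasSum (h1.congr fun i => ?_)
    simp [W, P, toC, mul_sub]
  have h3 : HasSum (fun j => Φ.W x j * toC f hf (Φ.P j) - Φ.W x j * f Φ.o)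
      (∑' i, Φ.w i x * (f (Φ.q i) - f Φ.o) + 0) := by
    refine HasSum.sum ?_ ?_
    · refine h2.congr_fun ?_ |> id
      intro i
      simp [W, P, toC, mul_sub]
    · have : HasSum (fun _ : Unit => (0 : ℝ)) 0 := hasSum_zero
      refine this.congr_fun ?_ |> id
      intro i
      simp [W, P, toC]
  have h4 := h3.unique (h.sub ((Φ.hasSum_W x.2).mul_right (f Φ.o)))
  have h5 : ∫ y : X, f y ∂(Φ.T x).μ = ∫ y, toC f hf y ∂(disc Φ.P (Φ.W_nonneg x.2) (Φ.hasSum_W x.2)).μ := rfl
  rw [h5]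
  linarith

theorem summable_c {x : E} (hx : x ∈ X) {f : E → ℝ} (hf : ContinuousOn f X) :
    Summable fun i => Φ.w i x * (f (Φ.q i) - f Φ.o) := by
  obtain ⟨C, hC⟩ := Φ.cpt.exists_bound_of_continuousOn hf
  refine Summable.of_norm_bounded (g := fun i => Φ.w i x * (C + C)) ((Φ.summable hx).mul_right _) fun i => ?_
  rw [norm_mul, Real.norm_of_nonneg (Φ.w_nonneg i x hx)]
  refine mul_le_mul_of_nonneg_left ?_ (Φ.w_nonneg i x hx)
  exact (norm_sub_le _ _).trans (add_le_add (hC _ (Φ.q_mem i)) (hC _ Φ.o_mem))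

/-- Jensen's inequality -/
theorem le_T (x : X) {f : E → ℝ} (hf : ContinuousOn f X) (cf : ConvexOn ℝ X f) :
    f x ≤ (∑' i, Φ.w i x * (f (Φ.q i) - f Φ.o)) + f Φ.o := by
  have h1 := Φ.w_conv x x.2
  have hmem : ∀ F : Finset ι, (∑ i ∈ F, Φ.w i x • Φ.q i) + (1 - ∑ i ∈ F, Φ.w i x) • Φ.o ∈ X ∧
      f ((∑ i ∈ F, Φ.w i x • Φ.q i) + (1 - ∑ i ∈ F, Φ.w i x) • Φ.o) ≤
        ∑ i ∈ F, Φ.w i x * (f (Φ.q i) - f Φ.o) + f Φ.o := by
    intro F
    classical
    have hs := Φ.w_sum x x.2 F
    let v : Option ι → ℝ := fun j => j.elim (1 - ∑ i ∈ F, Φ.w i x) fun i => Φ.w i x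
    let p : Option ι → E := fun j => j.elim Φ.o Φ.q
    have hv0 : ∀ j ∈ Finset.insertNone F, 0 ≤ v j := by
      intro j _
      cases j with
      | none => simp only [v, Option.elim]; linarith
      | some i => exact Φ.w_nonneg i x x.2
    have hv1 : ∑ j ∈ Finset.insertNone F, v j = 1 := by
      rw [Finset.sum_insertNone]
      simp [v]
    have hp : ∀ j ∈ Finset.insertNone F, p j ∈ X := by
      intro j _
      cases j with
      | none => exact Φ.o_mem
      | some i => exact Φ.q_mem i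
    have hm := Φ.cvx.sum_mem hv0 hv1 hp
    have hj := cf.map_sum_le hv0 hv1 hp
    rw [Finset.sum_insertNone] at hm hj
    rw [Finset.sum_insertNone] at hj
    simp only [v, p, Option.elim, smul_eq_mul] at hm hj
    rw [add_comm] at hm
    refine ⟨hm, ?_⟩
    rw [add_comm ((1 - ∑ i ∈ F, Φ.w i x) • Φ.o)] at hj
    refine hj.trans (le_of_eq ?_)
    simp only [mul_sub, Finset.sum_sub_distrib, ← Finset.sum_mul]
    ring
  have h2 : Tendsto (fun F : Finset ι => f ((∑ i ∈ F, Φ.w i x • Φ.q i) +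
      (1 - ∑ i ∈ F, Φ.w i x) • Φ.o)) atTop (𝓝 (f x)) := by
    have := hf x x.2
    refine this.tendsto.comp (tendsto_nhdsWithin_iff.2 ⟨h1, Eventually.of_forall fun F => (hmem F).1⟩)
  have h3 : Tendsto (fun F : Finset ι => ∑ i ∈ F, Φ.w i x * (f (Φ.q i) - f Φ.o) + f Φ.o) atTop
      (𝓝 ((∑' i, Φ.w i x * (f (Φ.q i) - f Φ.o)) + f Φ.o)) :=
    Tendsto.add_const _ (Φ.summable_c x.2 hf).hasSum
  exact le_of_tendsto_of_tendsto' h2 h3 fun F => (hmem F).2

/-- measurability of the coordinates and the barycentric formula for them -/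
theorem w_int (m : RadonProb X) (x : X) (hm : Represents m x) (i : ι) :
    AEStronglyMeasurable (fun y : X => Φ.w i y) m.μ ∧ ∫ y : X, Φ.w i y ∂m.μ = Φ.w i x := by
  haveI := m.prob
  obtain ⟨a, C, h1, h2, h3⟩ := Φ.w_lim i
  have hmeas : ∀ n, AEStronglyMeasurable (fun y : X => a n y) m.μ := fun n =>
    (integrable_on Φ.cpt m (h1 n).1).aestronglyMeasurable
  refine ⟨aestronglyMeasurable_of_tendsto_ae atTop hmeas (Eventually.of_forall fun y => h3 y y.2), ?_⟩
  have h4 : Tendsto (fun n => ∫ y : X, a n y ∂m.μ) atTop (𝓝 (∫ y : X, Φ.w i y ∂m.μ)) :=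
    tendsto_integral_of_dominated_convergence (fun _ => C) hmeas (integrable_const _)
      (fun n => Eventually.of_forall fun y => h2 n y y.2) (Eventually.of_forall fun y => h3 y y.2)
  have h5 : (fun n => ∫ y : X, a n y ∂m.μ) = fun n => a n x := by
    funext n
    exact (hm (a n) (h1 n).1 (h1 n).2.1 (h1 n).2.2).symm
  rw [h5] at h4
  exact tendsto_nhds_unique h4 (h3 x x.2)

/-- Every representing measure is below `T x` in the Choquet order. -/
theorem prec_T (m : RadonProb X) (x : X) (hm : Represents m x) : Prec m (Φ.T x) := by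
  intro f hf cf
  rw [Φ.T_int x hf]
  haveI := m.prob
  obtain ⟨C, hC⟩ := Φ.cpt.exists_bound_of_continuousOn hf
  have hC0 : 0 ≤ C := (norm_nonneg _).trans (hC _ Φ.o_mem)
  set D : Set ι := {i | f (Φ.q i) ≠ f Φ.o} with hD
  haveI : Countable D := (Φ.cnt f hf).to_subtype
  set c : ι → ℝ := fun i => f (Φ.q i) - f Φ.o with hc
  have hcb : ∀ i, |c i| ≤ C + C := fun i =>
    (norm_sub_le _ _).trans (add_le_add (hC _ (Φ.q_mem i)) (hC _ Φ.o_mem))
  have hsupp : ∀ y : E, Function.support (fun i => Φ.w i y * c i) ⊆ D := by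
    intro y i hi
    simp only [Function.mem_support] at hi
    intro h
    apply hi
    simp only [hc]
    rw [sub_eq_zero.2 (by simpa using h), mul_zero]
  have hs : ∀ y : X, HasSum (fun i : D => Φ.w i y * c i) (∑' i, Φ.w i y * c i) := by
    intro y
    have h1 := (Φ.summable_c y.2 hf).hasSum
    exact (hasSum_subtype_iff_of_support_subset (hsupp y)).2 h1
  have hmeas : ∀ i : D, AEStronglyMeasurable (fun y : X => Φ.w i y * c i) m.μ := fun i =>
    (Φ.w_int m x hm i).1.mul_const _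
  have hF : AEStronglyMeasurable (fun y : X => ∑' i, Φ.w i y * c i) m.μ := by
    refine aestronglyMeasurable_of_tendsto_ae (atTop : Filter (Finset D))
      (f := fun F (y : X) => ∑ i ∈ F, Φ.w i y * c i) (fun F => ?_) (Eventually.of_forall fun y => hs y)
    exact Finset.aestronglyMeasurable_fun_sum F fun i _ => hmeas i
  have hbd : ∀ y : X, |∑' i, Φ.w i y * c i| ≤ C + C := by
    intro y
    have h1 : ∀ i, ‖Φ.w i y * c i‖ ≤ Φ.w i y * (C + C) := by
      intro i
      rw [norm_mul, Real.norm_of_nonneg (Φ.w_nonneg i y y.2)]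
      exact mul_le_mul_of_nonneg_left (hcb i) (Φ.w_nonneg i y y.2)
    have h2 := tsum_of_norm_bounded ((Φ.summable y.2).hasSum.mul_right (C + C)) h1
    refine h2.trans ?_
    have := Φ.tsum_le y.2
    nlinarith
  have hFi : Integrable (fun y : X => ∑' i, Φ.w i y * c i) m.μ :=
    Integrable.of_bound hF (C + C) (Eventually.of_forall hbd)
  have hint : HasSum (fun i : D => ∫ y : X, Φ.w i y * c i ∂m.μ)
      (∫ y : X, ∑' i, Φ.w i y * c i ∂m.μ) := by
    refine hasSum_integral_of_dominated_convergence (fun (i : D) (y : X) => Φ.w i y * (C + C))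
      hmeas (fun i => Eventually.of_forall fun y => ?_) (Eventually.of_forall fun y => ?_) ?_
      (Eventually.of_forall fun y => hs y)
    · rw [norm_mul, Real.norm_of_nonneg (Φ.w_nonneg i y y.2)]
      exact mul_le_mul_of_nonneg_left (hcb i) (Φ.w_nonneg i y y.2)
    · exact ((Φ.summable y.2).subtype D).mul_right _
    · have hF' : AEStronglyMeasurable (fun y : X => ∑' i : D, Φ.w i y * (C + C)) m.μ := by
        refine aestronglyMeasurable_of_tendsto_ae (atTop : Filter (Finset D))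
          (f := fun F (y : X) => ∑ i ∈ F, Φ.w i y * (C + C)) (fun F => ?_)
          (Eventually.of_forall fun y => (((Φ.summable y.2).subtype D).mul_right _).hasSum)
        exact Finset.aestronglyMeasurable_fun_sum F fun i _ => (Φ.w_int m x hm i).1.mul_const _
      refine Integrable.of_bound hF' (C + C) (Eventually.of_forall fun y => ?_)
      rw [tsum_mul_right, norm_mul, Real.norm_of_nonneg (by linarith : 0 ≤ C + C)]
      have h0 : 0 ≤ ∑' i : D, Φ.w i y := tsum_nonneg fun i => Φ.w_nonneg i y y.2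
      rw [Real.norm_of_nonneg h0]
      have h1 : ∑' i : D, Φ.w i y ≤ 1 :=
        ((Φ.summable y.2).subtype D).tsum_le_of_sum_le fun F => by
          classical
          have := Φ.w_sum y y.2 (F.map (Function.Embedding.subtype _))
          simpa using this
      nlinarith
  have hval : ∫ y : X, ∑' i, Φ.w i y * c i ∂m.μ = ∑' i, Φ.w i x * c i := by
    have h1 : (fun i : D => ∫ y : X, Φ.w i y * c i ∂m.μ) = fun i : D => Φ.w i x * c i := by
      funext i
      rw [integral_mul_const, (Φ.w_int m x hm i).2]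
    rw [h1] at hint
    exact hint.unique (hs x)
  calc ∫ y : X, f y ∂m.μ ≤ ∫ y : X, ((∑' i, Φ.w i y * c i) + f Φ.o) ∂m.μ :=
        integral_mono (integrable_on Φ.cpt m hf) (hFi.add (integrable_const _))
          fun y => Φ.le_T y hf cf
    _ = (∑' i, Φ.w i x * c i) + f Φ.o := by
        rw [integral_add hFi (integrable_const _), hval]
        simp

theorem T_represents (x : X) : Represents (Φ.T x) x := by
  intro f hf h1 h2
  refine le_antisymm ?_ ?_
  · rw [Φ.T_int x hf]
    exact Φ.le_T x hf h1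
  · have h3 := Φ.le_T x hf.neg h2.neg
    have h4 := Φ.T_int x hf.neg
    have h5 : ∫ y : X, (-f) y ∂(Φ.T x).μ = - ∫ y : X, f y ∂(Φ.T x).μ := by
      simp only [Pi.neg_apply]
      exact integral_neg _
    rw [← h4, h5] at h3
    simp only [Pi.neg_apply] at h3
    linarith

variable [IsTopologicalAddGroup E] [ContinuousSMul ℝ E] [LocallyConvexSpace ℝ E]

theorem T_maximal (x : X) : IsMaximal (Φ.T x) := by
  intro n hn
  have hrep : Represents n x := by
    intro f hf h1 h2
    have e := Φ.T_represents x f hf h1 h2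
    have a1 := hn f hf h1
    have a2 := hn (-f) hf.neg h2.neg
    simp only [Pi.neg_apply] at a2
    rw [integral_neg, integral_neg] at a2
    linarith
  have h := Φ.prec_T n x hrep
  exact eq_of_convex Φ.cpt Φ.cvx n (Φ.T x) fun f hf cf => le_antisymm (h f hf cf) (hn f hf cf)

include Φ in
theorem isSimplex : IsSimplex X := by
  intro x
  refine ⟨Φ.T x, ⟨Φ.T_maximal x, Φ.T_represents x⟩, fun m hm => ?_⟩
  exact (hm.1 _ (Φ.prec_T m x hm.2)).symm

theorem T_unique (x : X) (m : RadonProb X) (hm : IsMaximal m ∧ Represents m x) : m = Φ.T x :=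
  (hm.1 _ (Φ.prec_T m x hm.2)).symm

end Frame

end Pool.Agent.Q211.CH
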