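import Pool.Agent.Q211.CH.Model

/-!
# The map `T` is not of class `C_1`
-/

open MeasureTheory Filter Topology

namespace Pool.Agent.Q211.CH

attribute [local instance] borelOn borelSpace_on

/-- the midpoint of the segment from the origin to `q (inr a)` -/
noncomputable def z (a : ℕ → Bool) : V := (2⁻¹ : ℝ) • q (Sum.inr a)

theorem z_mem (a : ℕ → Bool) : z a ∈ XS := by
  have := XS_convex (q_mem (Sum.inr a)) zero_mem (a := (2⁻¹ : ℝ)) (b := (2⁻¹ : ℝ)) (by norm_num)
    (by norm_num) (by norm_num)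
  simpa [z] using this

theorem p_tendsto (a : ℕ → Bool) : Tendsto (fun n => q (Sum.inl (n, c a n))) atTop (𝓝 (z a)) := by
  classical
  rw [tendsto_V]
  intro j
  cases j with
  | inl m =>
    have e : ev (Sum.inl m) (z a) = 0 := by
      rw [z, map_smul, q_inr_inl, smul_zero]
    rw [e]
    refine tendsto_const_nhds.congr' ?_
    filter_upwards [eventually_gt_atTop m.1] with n hn
    rw [q_inl_inl, if_neg]
    intro h
    rw [h] at hn
    exact lt_irrefl _ hn
  | inr b =>
    have e : ev (Sum.inr b) (z a) = if b = a then 1 else 0 := by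
      rw [z, map_smul, q_inr_inr]
      split_ifs <;> norm_num
    rw [e]
    refine tendsto_const_nhds.congr' ?_
    by_cases hab : b = a
    · subst hab
      refine Eventually.of_forall fun n => ?_
      show (if b = b then (1 : ℝ) else 0) = ev (Sum.inr b) (q (Sum.inl (n, c b n)))
      rw [q_inl_inr]
      simp
    · obtain ⟨k, hk⟩ := c_ne hab
      filter_upwards [eventually_gt_atTop k] with n hn
      show (if b = a then (1 : ℝ) else 0) = ev (Sum.inr b) (q (Sum.inl (n, c a n)))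
      rw [q_inl_inr, if_neg hab, if_neg]
      exact fun h => hk n hn h.symm

/-- the test functions -/
noncomputable def g (a : ℕ → Bool) (x : V) : ℝ := max 0 (ev (Sum.inr a) x - 1)

theorem g_cont (a : ℕ → Bool) : Continuous (g a) :=
  continuous_const.max ((ev_cont _).sub continuous_const)

theorem g_nonneg (a : ℕ → Bool) (x : V) : 0 ≤ g a x := le_max_left _ _

theorem g_le (a : ℕ → Bool) {x : V} (hx : x ∈ XS) : g a x ≤ w (Sum.inr a) x := by
  classical
  refine max_le (w_nonneg _ x hx) ?_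
  have h1 : ∑' n, ev (Sum.inl (n, c a n)) x + w (Sum.inr a) x ≤ 1 := by
    have h2 : Tendsto (fun N => ∑ n ∈ Finset.range N, ev (Sum.inl (n, c a n)) x + w (Sum.inr a) x)
        atTop (𝓝 (∑' n, ev (Sum.inl (n, c a n)) x + w (Sum.inr a) x)) :=
      (XS_summable hx a).hasSum.tendsto_sum_nat.add_const _
    refine le_of_tendsto' h2 fun N => ?_
    have h3 := w_sum x hx (((Finset.range N).image fun n => (n, c a n)).disjSum {a})
    rw [Finset.sum_disjSum, Finset.sum_singleton, Finset.sum_image] at h3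
    · exact h3
    · intro n _ n' _ h
      exact (Prod.ext_iff.1 h).1
  simp only [w] at h1 ⊢
  linarith

theorem g_sum {x : V} (hx : x ∈ XS) (F : Finset (ℕ → Bool)) : ∑ a ∈ F, g a x ≤ 1 := by
  classical
  refine (Finset.sum_le_sum fun a _ => g_le a hx).trans ?_
  have := w_sum x hx ((∅ : Finset (ℕ × ℕ)).disjSum F)
  rw [Finset.sum_disjSum] at this
  simpa using this

theorem g_countable (m : RadonProb XS) : {a | ∫ x : XS, g a x ∂m.μ ≠ 0}.Countable := by
  haveI := m.prob
  have hi : ∀ a, Integrable (fun x : XS => g a x) m.μ := fun a =>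
    integrable_on XS_compact m (g_cont a).continuousOn
  have : Summable fun a => ∫ x : XS, g a x ∂m.μ := by
    refine summable_of_sum_le (c := 1) (fun a => integral_nonneg fun x => g_nonneg a x) fun F => ?_
    rw [← integral_finset_sum F fun a _ => hi a]
    calc ∫ x : XS, ∑ a ∈ F, g a x ∂m.μ ≤ ∫ _ : XS, (1 : ℝ) ∂m.μ :=
          integral_mono (integrable_finset_sum F fun a _ => hi a) (integrable_const _)
            fun x => g_sum x.2 F
      _ = 1 := by simp
  exact this.countable_support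

theorem T_z (a : ℕ → Bool) : ∫ x : XS, g a x ∂(frame.T ⟨z a, z_mem a⟩).μ = 2⁻¹ := by
  classical
  rw [frame.T_int ⟨z a, z_mem a⟩ (g_cont a).continuousOn]
  have h0 : g a (frame.o) = 0 := by
    show g a 0 = 0
    simp [g]
  rw [h0, add_zero]
  have hw : ∀ i, frame.w i (z a) = (2⁻¹ : ℝ) * Set.indicator {Sum.inr a} (fun _ => (1 : ℝ)) i := by
    intro i
    have := frame.w_affine i (frame.q_mem (Sum.inr a)) frame.o_mem (a := (2⁻¹ : ℝ)) (b := (2⁻¹ : ℝ))
      (by norm_num) (by norm_num) (by norm_num)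
    rw [frame.w_q, frame.w_o] at this
    have e : (2⁻¹ : ℝ) • frame.q (Sum.inr a) + (2⁻¹ : ℝ) • frame.o = z a := by
      show (2⁻¹ : ℝ) • q (Sum.inr a) + (2⁻¹ : ℝ) • (0 : V) = z a
      rw [smul_zero, add_zero, z]
    rw [e] at this
    rw [this]; ring
  rw [tsum_eq_single (Sum.inr a)]
  · simp only [hw]
    rw [Set.indicator_of_mem (Set.mem_singleton _)]
    have : g a (frame.q (Sum.inr a)) = 1 := by
      show g a (q (Sum.inr a)) = 1
      rw [g, q_inr_inr, if_pos rfl]; norm_num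
    rw [this]; norm_num
  · intro i hi
    simp only [hw]
    rw [Set.indicator_of_notMem (by simpa using hi)]
    simp

theorem T_not_C1 : ¬ ClassC1 (X := XS) frame.T := by
  rintro ⟨S, hS, hlim⟩
  -- countably many branches are met by the countable set of the points `q (inl m)`
  have hc : (⋃ n : ℕ, ⋃ m : ℕ × ℕ, {a | ∫ x : XS, g a x ∂(S n ⟨q (Sum.inl m), q_mem _⟩).μ ≠ 0}).Countable :=
    Set.countable_iUnion fun n => Set.countable_iUnion fun m => g_countable _
  have hne : (⋃ n : ℕ, ⋃ m : ℕ × ℕ,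
      {a | ∫ x : XS, g a x ∂(S n ⟨q (Sum.inl m), q_mem _⟩).μ ≠ 0}) ≠ Set.univ := by
    intro h
    rw [h] at hc
    have : Uncountable (ℕ → Bool) := by
      rw [← Cardinal.aleph0_lt_mk_iff]
      simpa using Cardinal.cantor Cardinal.aleph0
    exact not_countable (α := ℕ → Bool) (Set.countable_univ_iff.1 hc)
  obtain ⟨a, ha⟩ := (Set.ne_univ_iff_exists_notMem _).1 hne
  simp only [Set.mem_iUnion, not_exists, Set.mem_setOf_eq, not_not] at ha
  have h0 : ∀ n, ∫ x : XS, g a x ∂(S n ⟨z a, z_mem a⟩).μ = 0 := by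
    intro n
    have hcont := continuous_integral (hS n) (toC (g a) (g_cont a).continuousOn)
    have ht : Tendsto (fun k => (⟨q (Sum.inl (k, c a k)), q_mem _⟩ : XS)) atTop (𝓝 ⟨z a, z_mem a⟩) :=
      tendsto_subtype_rng.2 (p_tendsto a)
    have h1 := (hcont.tendsto ⟨z a, z_mem a⟩).comp ht
    have h2 : Tendsto (fun _ : ℕ => (0 : ℝ)) atTop
        (𝓝 (∫ x, toC (g a) (g_cont a).continuousOn x ∂(S n ⟨z a, z_mem a⟩).μ)) :=
      h1.congr fun k => ha n (k, c a k)
    exact (tendsto_nhds_unique h2 tendsto_const_nhds)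
  have h1 := tendsto_integral (hlim ⟨z a, z_mem a⟩) (toC (g a) (g_cont a).continuousOn)
  have h2 : Tendsto (fun _ : ℕ => (0 : ℝ)) atTop
      (𝓝 (∫ x, toC (g a) (g_cont a).continuousOn x ∂(frame.T ⟨z a, z_mem a⟩).μ)) :=
    h1.congr fun n => h0 n
  have h3 := tendsto_nhds_unique h2 tendsto_const_nhds
  have h4 : ∫ x, toC (g a) (g_cont a).continuousOn x ∂(frame.T ⟨z a, z_mem a⟩).μ = 2⁻¹ := T_z a
  rw [h4] at h3
  norm_num at h3

/-- the compact pieces of the set of extreme points -/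
noncomputable def pieces (n : ℕ) : Set V :=
  insert 0 (Set.range fun a => q (Sum.inr a)) ∪ q '' (Sum.inl '' {m : ℕ × ℕ | m.1 ≤ n ∧ m.2 ≤ n})

theorem pieces_compact (n : ℕ) : IsCompact (pieces n) := by
  refine IsCompact.union q_tendsto.isCompact_insert_range_of_cofinite ?_
  have : {m : ℕ × ℕ | m.1 ≤ n ∧ m.2 ≤ n}.Finite := by
    have := (Set.finite_Iic n).prod (Set.finite_Iic n)
    exact this.subset fun m hm => ⟨hm.1, hm.2⟩
  exact ((this.image _).image _).isCompact

theorem pieces_union : ⋃ n, pieces n = XS.extremePoints ℝ := by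
  rw [frame.ext_eq]
  ext x
  simp only [Set.mem_iUnion, pieces]
  constructor
  · rintro ⟨n, (rfl | ⟨a, rfl⟩) | ⟨_, ⟨m, -, rfl⟩, rfl⟩⟩
    · exact Or.inl rfl
    · exact Or.inr ⟨Sum.inr a, rfl⟩
    · exact Or.inr ⟨Sum.inl m, rfl⟩
  · rintro (rfl | ⟨i, rfl⟩)
    · exact ⟨0, Or.inl (Or.inl rfl)⟩
    · cases i with
      | inl m => exact ⟨max m.1 m.2, Or.inr ⟨_, ⟨m, ⟨le_max_left _ _, le_max_right _ _⟩, rfl⟩, rfl⟩⟩
      | inr a => exact ⟨0, Or.inl (Or.inr ⟨a, rfl⟩)⟩

end Pool.Agent.Q211.CH
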