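import Pool.Agent.Q211.CH.Space

/-!
# The frame of the compact convex set
-/

open MeasureTheory Filter Topology

namespace Pool.Agent.Q211.CH

open Classical in
/-- the extreme points other than the origin -/
noncomputable def q : I → V
  | Sum.inl m => fun
    | Sum.inl m' => if m' = m then 1 else 0
    | Sum.inr a => if m.2 = c a m.1 then 1 else 0
  | Sum.inr a => fun
    | Sum.inl _ => 0
    | Sum.inr b => if b = a then 2 else 0

open Classical in
theorem q_inl_inl (m m' : ℕ × ℕ) : ev (Sum.inl m') (q (Sum.inl m)) = if m' = m then 1 else 0 := rfl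

open Classical in
theorem q_inl_inr (m : ℕ × ℕ) (a : ℕ → Bool) :
    ev (Sum.inr a) (q (Sum.inl m)) = if m.2 = c a m.1 then 1 else 0 := rfl

theorem q_inr_inl (m : ℕ × ℕ) (a : ℕ → Bool) : ev (Sum.inl m) (q (Sum.inr a)) = 0 := rfl

open Classical in
theorem q_inr_inr (a b : ℕ → Bool) : ev (Sum.inr b) (q (Sum.inr a)) = if b = a then 2 else 0 := rfl

/-- the masses -/
noncomputable def w : I → V → ℝ
  | Sum.inl m => fun x => ev (Sum.inl m) x
  | Sum.inr a => fun x => (ev (Sum.inr a) x - ∑' n, ev (Sum.inl (n, c a n)) x) / 2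

theorem XS_summable {x : V} (hx : x ∈ XS) (a : ℕ → Bool) :
    Summable fun n => ev (Sum.inl (n, c a n)) x := by
  refine summable_of_sum_range_le (c := ev (Sum.inr a) x) (fun n => hx.1 _) fun N => ?_
  have := hx.2.1 a N
  rw [Mf_apply] at this
  linarith

theorem XS_tsum_le {x : V} (hx : x ∈ XS) (a : ℕ → Bool) :
    ∑' n, ev (Sum.inl (n, c a n)) x ≤ ev (Sum.inr a) x := by
  refine (XS_summable hx a).tsum_le_of_sum_range_le fun N => ?_
  have := hx.2.1 a N
  rw [Mf_apply] at this
  linarith

theorem zero_mem : (0 : V) ∈ XS :=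
  ⟨fun m => by simp, fun a N => by simp, fun F G _ => by simp⟩

theorem q_mem (i : I) : q i ∈ XS := by
  classical
  cases i with
  | inl m =>
    refine ⟨fun m' => ?_, fun a N => ?_, fun F G h => ?_⟩
    · rw [q_inl_inl]; split_ifs <;> norm_num
    · rw [Mf_apply, q_inl_inr]
      simp only [q_inl_inl]
      by_cases hm : m.2 = c a m.1
      · rw [if_pos hm]
        have h1 : ∀ n ∈ Finset.range N, (if (n, c a n) = m then (1 : ℝ) else 0) ≤
            if n = m.1 then 1 else 0 := by
          intro n _
          by_cases h : (n, c a n) = m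
          · have : n = m.1 := by rw [← h]
            rw [if_pos h, if_pos this]
          · rw [if_neg h]; split_ifs <;> norm_num
        have h2 := Finset.sum_le_sum h1
        rw [Finset.sum_ite_eq'] at h2
        have h3 : (if m.1 ∈ Finset.range N then (1 : ℝ) else 0) ≤ 1 := by split_ifs <;> norm_num
        linarith
      · rw [if_neg hm]
        have : ∑ n ∈ Finset.range N, (if (n, c a n) = m then (1 : ℝ) else 0) = 0 := by
          refine Finset.sum_eq_zero fun n _ => if_neg fun h => hm ?_
          rw [← h]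
        rw [this, sub_zero]
    · rw [Lf_apply]
      simp only [q_inl_inl, q_inl_inr]
      rw [Finset.sum_ite_eq' G m]
      have h1 : ∀ a ∈ F, ((if m.2 = c a m.1 then (1 : ℝ) else 0) -
          ∑ m' ∈ G with m'.2 = c a m'.1, if m' = m then (1 : ℝ) else 0) =
          if m.2 = c a m.1 ∧ m ∉ G then 1 else 0 := by
        intro a _
        rw [Finset.sum_ite_eq' _ m]
        simp only [Finset.mem_filter]
        by_cases h2 : m.2 = c a m.1 <;> by_cases h3 : m ∈ G <;> simp [h2, h3]
      rw [Finset.sum_congr rfl h1]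
      by_cases hG : m ∈ G
      · simp [hG]
      · simp only [hG, if_false, not_false_iff, and_true, zero_add]
        rw [← Finset.sum_filter, Finset.sum_const, nsmul_eq_mul, mul_one]
        have hc : (Finset.filter (fun a => m.2 = c a m.1) F).card ≤ 1 := by
          refine Finset.card_le_one.2 fun a ha b hb => ?_
          rw [Finset.mem_filter] at ha hb
          by_contra hab
          refine hG ?_
          have := h a ha.1 b hb.1 hab m.1 (ha.2.symm.trans hb.2)
          rwa [← ha.2] at this
        have : ((Finset.filter (fun a => m.2 = c a m.1) F).card : ℝ) ≤ 1 := by exact_mod_cast hc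
        linarith
  | inr a =>
    refine ⟨fun m' => ?_, fun b N => ?_, fun F G h => ?_⟩
    · rw [q_inr_inl]
    · rw [Mf_apply, q_inr_inr]
      simp only [q_inr_inl, Finset.sum_const_zero, sub_zero]
      split_ifs <;> norm_num
    · rw [Lf_apply]
      simp only [q_inr_inl, q_inr_inr, Finset.sum_const_zero, sub_zero, zero_add]
      rw [Finset.sum_ite_eq' F a]
      split_ifs <;> norm_num

theorem w_nonneg (i : I) (x : V) (hx : x ∈ XS) : 0 ≤ w i x := by
  cases i with
  | inl m => exact hx.1 m
  | inr a =>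
    have := XS_tsum_le hx a
    simp only [w]
    linarith

theorem good_exists (F : Finset (ℕ → Bool)) (G₀ : Finset (ℕ × ℕ)) : ∃ G, G₀ ⊆ G ∧ Good F G := by
  classical
  have hfin : (⋃ a ∈ F, ⋃ b ∈ F, {m : ℕ × ℕ | a ≠ b ∧ c a m.1 = c b m.1 ∧ m.2 = c a m.1}).Finite := by
    refine Set.Finite.biUnion F.finite_toSet fun a _ => Set.Finite.biUnion F.finite_toSet fun b _ => ?_
    by_cases hab : a = b
    · simp [hab]
    · refine ((c_fin hab).image fun n => (n, c a n)).subset ?_
      rintro ⟨n, k⟩ ⟨-, h1, h2⟩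
      simp only at h1 h2
      exact ⟨n, h1, by rw [h2]⟩
  refine ⟨G₀ ∪ hfin.toFinset, Finset.subset_union_left, fun a ha b hb hab n hn => ?_⟩
  rw [Finset.mem_union, Set.Finite.mem_toFinset]
  right
  simp only [Set.mem_iUnion]
  exact ⟨a, ha, b, hb, hab, hn, rfl⟩

theorem w_sum (x : V) (hx : x ∈ XS) (F : Finset I) : ∑ i ∈ F, w i x ≤ 1 := by
  classical
  rw [← Finset.toLeft_disjSum_toRight (u := F), Finset.sum_disjSum]
  obtain ⟨G, hG, hgood⟩ := good_exists F.toRight F.toLeft
  have h := hx.2.2 F.toRight G hgood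
  rw [Lf_apply] at h
  have h1 : ∑ m ∈ F.toLeft, w (Sum.inl m) x ≤ ∑ m ∈ G, ev (Sum.inl m) x :=
    Finset.sum_le_sum_of_subset_of_nonneg hG fun m _ _ => hx.1 m
  have h2 : ∑ a ∈ F.toRight, w (Sum.inr a) x ≤ (1 / 2 : ℝ) * ∑ a ∈ F.toRight, (ev (Sum.inr a) x -
      ∑ m ∈ G with m.2 = c a m.1, ev (Sum.inl m) x) := by
    rw [Finset.mul_sum]
    refine Finset.sum_le_sum fun a _ => ?_
    have h3 : ∑ m ∈ G with m.2 = c a m.1, ev (Sum.inl m) x ≤ ∑' n, ev (Sum.inl (n, c a n)) x := by
      have h4 : ∑ m ∈ G with m.2 = c a m.1, ev (Sum.inl m) x =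
          ∑ n ∈ (G.filter fun m => m.2 = c a m.1).image Prod.fst, ev (Sum.inl (n, c a n)) x := by
        rw [Finset.sum_image]
        · refine Finset.sum_congr rfl fun m hm => ?_
          rw [← (Finset.mem_filter.1 hm).2]
        · intro m hm m' hm' e
          have e1 := (Finset.mem_filter.1 (Finset.mem_coe.1 hm)).2
          have e2 := (Finset.mem_filter.1 (Finset.mem_coe.1 hm')).2
          refine Prod.ext e ?_
          rw [e1, e2, e]
      rw [h4]
      exact (XS_summable hx a).sum_le_tsum _ fun n _ => hx.1 _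
    simp only [w]
    linarith
  linarith

theorem hasSum_coord {x : V} (hx : x ∈ XS) (j : I) : HasSum (fun i => w i x * ev j (q i)) (ev j x) := by
  classical
  cases j with
  | inl m =>
    have : HasSum (fun i => w i x * ev (Sum.inl m) (q i)) (w (Sum.inl m) x * ev (Sum.inl m) (q (Sum.inl m))) := by
      refine hasSum_single (Sum.inl m) fun i hi => ?_
      cases i with
      | inl m' =>
        have : m ≠ m' := fun h => hi (by rw [h])
        rw [q_inl_inl, if_neg this, mul_zero]
      | inr a => rw [q_inr_inl, mul_zero]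
    rw [q_inl_inl, if_pos rfl, mul_one] at this
    exact this
  | inr a =>
    have h1 : HasSum (fun m : ℕ × ℕ => w (Sum.inl m) x * ev (Sum.inr a) (q (Sum.inl m)))
        (∑' n, ev (Sum.inl (n, c a n)) x) := by
      have hinj : Function.Injective fun n : ℕ => (n, c a n) := fun n n' h => (Prod.ext_iff.1 h).1
      rw [← hinj.hasSum_iff]
      · refine (XS_summable hx a).hasSum.congr_fun ?_ |> id
        intro n
        simp [w, q_inl_inr]
      · intro m hm
        have : ¬ m.2 = c a m.1 := fun h => hm ⟨m.1, by show (m.1, c a m.1) = m; rw [← h]⟩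
        rw [q_inl_inr, if_neg this, mul_zero]
    have h2 : HasSum (fun b : ℕ → Bool => w (Sum.inr b) x * ev (Sum.inr a) (q (Sum.inr b)))
        (w (Sum.inr a) x * 2) := by
      have : HasSum (fun b : ℕ → Bool => w (Sum.inr b) x * ev (Sum.inr a) (q (Sum.inr b)))
          (w (Sum.inr a) x * ev (Sum.inr a) (q (Sum.inr a))) := by
        refine hasSum_single a fun b hb => ?_
        rw [q_inr_inr, if_neg (Ne.symm hb), mul_zero]
      rwa [q_inr_inr, if_pos rfl] at this
    have h3 := HasSum.sum (f := fun i => w i x * ev (Sum.inr a) (q i)) h1 h2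
    have e : ∑' n, ev (Sum.inl (n, c a n)) x + w (Sum.inr a) x * 2 = ev (Sum.inr a) x := by
      simp only [w]; ring
    rwa [e] at h3

theorem w_conv (x : V) (hx : x ∈ XS) : Tendsto (fun F : Finset I => (∑ i ∈ F, w i x • q i) +
    (1 - ∑ i ∈ F, w i x) • (0 : V)) atTop (𝓝 x) := by
  rw [tendsto_V]
  intro j
  refine (hasSum_coord hx j).congr fun F => ?_
  simp

theorem w_lim (i : I) : ∃ a : ℕ → V → ℝ, ∃ C : ℝ, (∀ n, ContinuousOn (a n) XS ∧
    ConvexOn ℝ XS (a n) ∧ ConcaveOn ℝ XS (a n)) ∧ (∀ n, ∀ x ∈ XS, |a n x| ≤ C) ∧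
    ∀ x ∈ XS, Tendsto (fun n => a n x) atTop (𝓝 (w i x)) := by
  cases i with
  | inl m =>
    refine ⟨fun _ => ev (Sum.inl m), 1, fun n => ⟨(ev_cont _).continuousOn,
      (ev _).convexOn XS_convex, (ev _).concaveOn XS_convex⟩, fun n x hx => ?_, fun x hx => ?_⟩
    · rw [abs_of_nonneg (hx.1 m)]; exact inl_le hx m
    · exact tendsto_const_nhds
  | inr a =>
    refine ⟨fun n => (2⁻¹ : ℝ) • (Mf a n : V →ₗ[ℝ] ℝ), 1, fun n => ⟨?_,
      LinearMap.convexOn ((2⁻¹ : ℝ) • Mf a n) XS_convex,
      LinearMap.concaveOn ((2⁻¹ : ℝ) • Mf a n) XS_convex⟩, fun n x hx => ?_, fun x hx => ?_⟩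
    · exact ((Mf_cont a n).const_smul _).continuousOn
    · have h1 := hx.2.1 a n
      have h2 : Mf a n x ≤ 2 := by
        rw [Mf_apply]
        have := Finset.sum_nonneg (s := Finset.range n) fun k (_ : k ∈ Finset.range n) => hx.1 (k, c a k)
        linarith [inr_le hx a]
      simp only [Pi.smul_apply, LinearMap.smul_apply, smul_eq_mul]
      rw [abs_of_nonneg (by positivity)]
      linarith
    · have h1 := (XS_summable hx a).hasSum.tendsto_sum_nat
      have h2 := (h1.const_sub (ev (Sum.inr a) x)).div_const 2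
      refine h2.congr fun n => ?_
      simp only [Pi.smul_apply, LinearMap.smul_apply, smul_eq_mul, Mf_apply]
      ring

theorem q_tendsto : Tendsto (fun a : ℕ → Bool => q (Sum.inr a)) cofinite (𝓝 (0 : V)) := by
  rw [tendsto_V]
  intro j
  cases j with
  | inl m =>
    refine tendsto_const_nhds.congr fun a => ?_
    rw [q_inr_inl, map_zero]
  | inr b =>
    rw [map_zero]
    refine tendsto_const_nhds.congr' ?_
    have : {a : ℕ → Bool | ¬ (0 : ℝ) = ev (Sum.inr b) (q (Sum.inr a))} ⊆ {b} := by
      intro a ha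
      by_contra hab
      refine ha ?_
      rw [q_inr_inr, if_neg (fun h => hab (by rw [Set.mem_singleton_iff, h]))]
    exact (Set.finite_singleton b).subset this

theorem cnt (f : V → ℝ) (hf : ContinuousOn f XS) : {i | f (q i) ≠ f 0}.Countable := by
  have h1 : Tendsto (fun a : ℕ → Bool => f (q (Sum.inr a))) cofinite (𝓝 (f 0)) :=
    (hf 0 zero_mem).tendsto.comp (tendsto_nhdsWithin_iff.2 ⟨q_tendsto, Eventually.of_forall fun a => q_mem _⟩)
  have h2 := h1.countable_compl_preimage_ker
  rw [ker_nhds] at h2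
  have h3 : {i | f (q i) ≠ f 0} ⊆ Sum.inl '' (Set.univ : Set (ℕ × ℕ)) ∪
      Sum.inr '' ((fun a : ℕ → Bool => f (q (Sum.inr a))) ⁻¹' {f 0})ᶜ := by
    intro i hi
    cases i with
    | inl m => exact Or.inl ⟨m, trivial, rfl⟩
    | inr a => exact Or.inr ⟨a, hi, rfl⟩
  exact ((Set.countable_univ.image _).union (h2.image _)).mono h3

theorem w_q (i j : I) : w i (q j) = Set.indicator {j} (fun _ => (1 : ℝ)) i := by
  classical
  cases i with
  | inl m =>
    cases j with
    | inl m' =>
      simp only [w, q_inl_inl]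
      by_cases h : m = m'
      · subst h; simp
      · rw [if_neg h, Set.indicator_of_notMem]
        simpa using h
    | inr a =>
      simp only [w, q_inr_inl]
      rw [Set.indicator_of_notMem (by simp)]
  | inr a =>
    cases j with
    | inl m =>
      simp only [w, q_inl_inl, q_inl_inr]
      rw [Set.indicator_of_notMem (by simp)]
      have h1 : ∑' n, (if (n, c a n) = m then (1 : ℝ) else 0) = if m.2 = c a m.1 then 1 else 0 := by
        rw [tsum_eq_single m.1]
        · by_cases h : m.2 = c a m.1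
          · rw [if_pos h, if_pos (by rw [← h])]
          · rw [if_neg h, if_neg (fun h' => h (by rw [← h']))]
        · intro n hn
          rw [if_neg (fun h' => hn (by rw [← h']))]
      rw [h1]
      simp
    | inr b =>
      simp only [w, q_inr_inl, q_inr_inr, tsum_zero, sub_zero]
      by_cases h : a = b
      · subst h; simp
      · rw [if_neg h, Set.indicator_of_notMem (by simpa using h)]
        simp

theorem w_o (i : I) : w i 0 = 0 := by
  cases i with
  | inl m => simp [w]
  | inr a => simp [w]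

/-- the frame -/
noncomputable def frame : Frame XS I where
  cpt := XS_compact
  cvx := XS_convex
  o := 0
  q := q
  w := w
  o_mem := zero_mem
  q_mem := q_mem
  w_nonneg := w_nonneg
  w_sum := w_sum
  w_conv := w_conv
  w_lim := w_lim
  cnt := cnt
  w_q := w_q
  w_o := w_o

end Pool.Agent.Q211.CH
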