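import Pool.Agent.Q211.CH.Ext

/-!
# The compact convex set over an eventually different family
-/

open MeasureTheory Filter Topology

namespace Pool.Agent.Q211.CH

/-- an eventually different family of functions indexed by the Cantor set -/
def c (x : ℕ → Bool) (n : ℕ) : ℕ := Encodable.encode (fun i : Fin n => x i)

theorem c_ne {x y : ℕ → Bool} (h : x ≠ y) : ∃ k, ∀ n, k < n → c x n ≠ c y n := by
  obtain ⟨k, hk⟩ := Function.ne_iff.1 h
  refine ⟨k, fun n hn e => hk ?_⟩
  have := Encodable.encode_injective e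
  exact congrFun this ⟨k, hn⟩

theorem c_fin {x y : ℕ → Bool} (h : x ≠ y) : {n | c x n = c y n}.Finite := by
  obtain ⟨k, hk⟩ := c_ne h
  refine (Set.finite_Iic k).subset fun n hn => ?_
  by_contra hcon
  exact hk n (not_le.1 hcon) hn

/-- the coordinates -/
abbrev I : Type := (ℕ × ℕ) ⊕ (ℕ → Bool)

/-- the locally convex space -/
def V : Type := I → ℝ

noncomputable instance : AddCommGroup V := inferInstanceAs (AddCommGroup (I → ℝ))
noncomputable instance : Module ℝ V := inferInstanceAs (Module ℝ (I → ℝ))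
instance : TopologicalSpace V := inferInstanceAs (TopologicalSpace (I → ℝ))
instance : IsTopologicalAddGroup V := inferInstanceAs (IsTopologicalAddGroup (I → ℝ))
instance : ContinuousSMul ℝ V := inferInstanceAs (ContinuousSMul ℝ (I → ℝ))
instance : LocallyConvexSpace ℝ V := inferInstanceAs (LocallyConvexSpace ℝ (I → ℝ))
instance : T2Space V := inferInstanceAs (T2Space (I → ℝ))

/-- coordinate functionals -/
def ev (i : I) : V →ₗ[ℝ] ℝ where
  toFun x := x i
  map_add' _ _ := rfl
  map_smul' _ _ := rfl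

theorem ev_cont (i : I) : Continuous (ev i) := continuous_apply (A := fun _ : I => ℝ) i

theorem tendsto_V {α : Type*} {l : Filter α} {u : α → V} {x : V} :
    Tendsto u l (𝓝 x) ↔ ∀ i, Tendsto (fun z => ev i (u z)) l (𝓝 (ev i x)) :=
  tendsto_pi_nhds (A := fun _ : I => ℝ)

/-- partial differences -/
noncomputable def Mf (a : ℕ → Bool) (N : ℕ) : V →ₗ[ℝ] ℝ :=
  ev (Sum.inr a) - ∑ n ∈ Finset.range N, ev (Sum.inl (n, c a n))

open Classical in
/-- the functional of a finite set of branches and a finite set of nodes -/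
noncomputable def Lf (F : Finset (ℕ → Bool)) (G : Finset (ℕ × ℕ)) : V →ₗ[ℝ] ℝ :=
  ∑ m ∈ G, ev (Sum.inl m) + (1 / 2 : ℝ) • ∑ a ∈ F, (ev (Sum.inr a) -
    ∑ m ∈ G with m.2 = c a m.1, ev (Sum.inl m))

/-- outside `G` the graphs of the members of `F` are disjoint -/
def Good (F : Finset (ℕ → Bool)) (G : Finset (ℕ × ℕ)) : Prop :=
  ∀ a ∈ F, ∀ b ∈ F, a ≠ b → ∀ n, c a n = c b n → (n, c a n) ∈ G

/-- the compact convex set -/
def XS : Set V := {x | (∀ m, 0 ≤ ev (Sum.inl m) x) ∧ (∀ a N, 0 ≤ Mf a N x) ∧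
  ∀ F G, Good F G → Lf F G x ≤ 1}

theorem Mf_cont (a : ℕ → Bool) (N : ℕ) : Continuous (Mf a N) := by
  have : ⇑(Mf a N) = fun x => ev (Sum.inr a) x - ∑ n ∈ Finset.range N, ev (Sum.inl (n, c a n)) x := by
    funext x; simp [Mf]
  rw [this]
  exact (ev_cont _).sub (continuous_finset_sum _ fun n _ => ev_cont _)

open Classical in
theorem Lf_apply (F : Finset (ℕ → Bool)) (G : Finset (ℕ × ℕ)) (x : V) :
    Lf F G x = ∑ m ∈ G, ev (Sum.inl m) x + (1 / 2 : ℝ) * ∑ a ∈ F, (ev (Sum.inr a) x -
      ∑ m ∈ G with m.2 = c a m.1, ev (Sum.inl m) x) := by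
  simp [Lf]

theorem Mf_apply (a : ℕ → Bool) (N : ℕ) (x : V) :
    Mf a N x = ev (Sum.inr a) x - ∑ n ∈ Finset.range N, ev (Sum.inl (n, c a n)) x := by
  simp [Mf]

theorem Lf_cont (F : Finset (ℕ → Bool)) (G : Finset (ℕ × ℕ)) : Continuous (Lf F G) := by
  have : ⇑(Lf F G) = fun x => Lf F G x := rfl
  rw [this]
  simp only [Lf_apply]
  exact (continuous_finset_sum _ fun n _ => ev_cont _).add (continuous_const.mul
    (continuous_finset_sum _ fun n _ => (ev_cont _).sub (continuous_finset_sum _ fun n _ => ev_cont _)))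

theorem XS_convex : Convex ℝ XS := by
  intro x hx y hy a b ha hb hab
  refine ⟨fun m => ?_, fun a' N => ?_, fun F G h => ?_⟩
  · rw [map_add, map_smul, map_smul, smul_eq_mul, smul_eq_mul]
    have := hx.1 m; have := hy.1 m
    positivity
  · rw [map_add, map_smul, map_smul, smul_eq_mul, smul_eq_mul]
    have := hx.2.1 a' N; have := hy.2.1 a' N
    positivity
  · rw [map_add, map_smul, map_smul, smul_eq_mul, smul_eq_mul]
    have h1 := mul_le_mul_of_nonneg_left (hx.2.2 F G h) ha
    have h2 := mul_le_mul_of_nonneg_left (hy.2.2 F G h) hb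
    linarith

theorem XS_closed : IsClosed XS := by
  have h1 : IsClosed {x : V | ∀ m, 0 ≤ ev (Sum.inl m) x} := by
    simp only [Set.setOf_forall]
    exact isClosed_iInter fun m => isClosed_le continuous_const (ev_cont _)
  have h2 : IsClosed {x : V | ∀ a N, 0 ≤ Mf a N x} := by
    simp only [Set.setOf_forall]
    exact isClosed_iInter fun m => isClosed_iInter fun N => isClosed_le continuous_const (Mf_cont _ _)
  have h3 : IsClosed {x : V | ∀ F G, Good F G → Lf F G x ≤ 1} := by
    simp only [Set.setOf_forall]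
    exact isClosed_iInter fun m => isClosed_iInter fun N => isClosed_iInter fun _ =>
      isClosed_le (Lf_cont _ _) continuous_const
  exact h1.inter (h2.inter h3)

theorem inl_le {x : V} (hx : x ∈ XS) (m : ℕ × ℕ) : ev (Sum.inl m) x ≤ 1 := by
  have := hx.2.2 ∅ {m} (by intro a ha; simp at ha)
  rw [Lf_apply] at this
  simpa using this

theorem inr_nonneg {x : V} (hx : x ∈ XS) (a : ℕ → Bool) : 0 ≤ ev (Sum.inr a) x := by
  have := hx.2.1 a 0
  rw [Mf_apply] at this
  simpa using this

theorem inr_le {x : V} (hx : x ∈ XS) (a : ℕ → Bool) : ev (Sum.inr a) x ≤ 2 := by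
  have := hx.2.2 {a} ∅ (by
    intro a ha b hb hab
    rw [Finset.mem_singleton] at ha hb
    exact absurd (ha.trans hb.symm) hab)
  rw [Lf_apply] at this
  simp at this
  linarith

theorem XS_compact : IsCompact XS := by
  have hbox : IsCompact (Set.pi Set.univ fun _ : I => Set.Icc (0 : ℝ) 2) :=
    isCompact_univ_pi fun _ => isCompact_Icc
  have hbox' : IsCompact {x : V | ∀ i, ev i x ∈ Set.Icc (0 : ℝ) 2} := by
    have e : (Set.pi Set.univ fun _ : I => Set.Icc (0 : ℝ) 2) =
      ({x : V | ∀ i, ev i x ∈ Set.Icc (0 : ℝ) 2} : Set (I → ℝ)) := by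
      ext x
      simp only [Set.mem_pi, Set.mem_univ, true_implies]
      rfl
    rw [e] at hbox
    exact hbox
  refine hbox'.of_isClosed_subset XS_closed fun x hx i => ?_
  cases i with
  | inl m => exact ⟨hx.1 m, (inl_le hx m).trans (by norm_num)⟩
  | inr a => exact ⟨inr_nonneg hx a, inr_le hx a⟩

end Pool.Agent.Q211.CH
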